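import Mathlib
import Pool.Agent.Results.MP_155ab0_nt.LimitZero

set_option autoImplicit false

/-!
# Distinct multinomial coefficients versus restricted partitions

Let `M(n)` be the number of distinct multinomial coefficients with upper entry `n` and `p*(n)` the
number of partitions of `n` whose parts are at most `6` or divisible by `3`. The inequality
`M(n) ≥ p*(n)` fails for all large `n`: by an earlier result `log M(n) / √n → 0`, while
`p*(n) ≥ 2 ^ m` as soon as `3 m² ≤ n` (distinct multiples of `3` up to `3 m`, completed by ones).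
-/

namespace Pool.Agent.Results.MP_f0b429_co.EventuallySmaller

open Finset

/-- the set of the integers that occur as a multinomial coefficient `n! / (i_1! ⋯ i_k!)` with upper
entry `n`, over all `k ≥ 1` and all `k`-tuples of non-negative integers with sum `n` -/
def multinomials (n : ℕ) : Set ℕ :=
  {m | ∃ (k : ℕ) (i : Fin k → ℕ), 1 ≤ k ∧ ∑ j, i j = n ∧ m = Nat.multinomial Finset.univ i}

/-- `M(n)`, the number of distinct multinomial coefficients with upper entry `n` -/
noncomputable def M (n : ℕ) : ℕ := (multinomials n).ncard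

/-- `p*(n)`, the number of partitions of `n` in which every part is at most `6` or divisible
by `3` -/
def pStar (n : ℕ) : ℕ :=
  (Finset.univ.filter fun P : Nat.Partition n => ∀ i ∈ P.parts, i ≤ 6 ∨ 3 ∣ i).card

/-- the multiset of the numbers `3 (i + 1)`, `i ∈ S` -/
def big (S : Finset ℕ) : Multiset ℕ := S.val.map fun i => 3 * (i + 1)

lemma big_sum (m : ℕ) (S : Finset ℕ) (hS : S ⊆ range m) : (big S).sum ≤ 3 * m ^ 2 := by
  unfold big
  have h1 : (S.val.map fun i => 3 * (i + 1)).sum = ∑ i ∈ S, 3 * (i + 1) := rfl
  rw [h1]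
  calc ∑ i ∈ S, 3 * (i + 1) ≤ ∑ i ∈ S, 3 * m := by
        apply sum_le_sum
        intro i hi
        have := mem_range.1 (hS hi)
        omega
    _ = S.card * (3 * m) := by rw [sum_const, smul_eq_mul]
    _ ≤ m * (3 * m) := by
        apply Nat.mul_le_mul_right
        simpa using card_le_card hS
    _ = 3 * m ^ 2 := by ring

lemma pStar_lower (n m : ℕ) (h : 3 * m ^ 2 ≤ n) : 2 ^ m ≤ pStar n := by
  classical
  have hc : (range m).powerset.card = 2 ^ m := by rw [card_powerset, card_range]
  rw [← hc]
  unfold pStar
  apply Finset.card_le_card_of_injOn (fun S => if hS : (big S).sum ≤ n then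
    (⟨big S + Multiset.replicate (n - (big S).sum) 1, by
      intro i hi
      rw [Multiset.mem_add] at hi
      rcases hi with hi | hi
      · unfold big at hi
        rw [Multiset.mem_map] at hi
        obtain ⟨j, _, rfl⟩ := hi
        omega
      · rw [Multiset.eq_of_mem_replicate hi]
        exact Nat.one_pos, by
      rw [Multiset.sum_add, Multiset.sum_replicate, smul_eq_mul, mul_one]
      omega⟩ : Nat.Partition n) else Nat.Partition.indiscrete n)
  · intro S hS
    have hS' : S ⊆ range m := mem_powerset.1 (Finset.mem_coe.1 hS)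
    have hs : (big S).sum ≤ n := (big_sum m S hS').trans h
    rw [Finset.mem_coe, mem_filter]
    refine ⟨mem_univ _, ?_⟩
    intro i hi
    simp only [dif_pos hs] at hi
    simp only [Multiset.mem_add] at hi
    rcases hi with hi | hi
    · right
      unfold big at hi
      rw [Multiset.mem_map] at hi
      obtain ⟨j, _, rfl⟩ := hi
      exact dvd_mul_right _ _
    · left
      rw [Multiset.eq_of_mem_replicate hi]
      omega
  · intro S hS T hT hST
    have hS' : S ⊆ range m := mem_powerset.1 (Finset.mem_coe.1 hS)
    have hT' : T ⊆ range m := mem_powerset.1 (Finset.mem_coe.1 hT)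
    have hs : (big S).sum ≤ n := (big_sum m S hS').trans h
    have ht : (big T).sum ≤ n := (big_sum m T hT').trans h
    have key : ∀ U : Finset ℕ, (big U).sum ≤ n → ∀ i : ℕ, (i ∈ U ↔
        3 * (i + 1) ∈ big U + Multiset.replicate (n - (big U).sum) 1) := by
      intro U _ i
      rw [Multiset.mem_add]
      constructor
      · intro hi
        left
        exact Multiset.mem_map.2 ⟨i, hi, rfl⟩
      · rintro (hi | hi)
        · obtain ⟨j, hj, hji⟩ := Multiset.mem_map.1 hi
          have : j = i := by omega
          rw [← this]; exact hj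
        · have := Multiset.eq_of_mem_replicate hi
          omega
    have hST' : (big S + Multiset.replicate (n - (big S).sum) 1) =
        (big T + Multiset.replicate (n - (big T).sum) 1) := by
      have h1 := congrArg Nat.Partition.parts hST
      simp only [dif_pos hs, dif_pos ht] at h1
      exact h1
    ext i
    rw [key S hs i, key T ht i, hST']

/-- **The result.** `M(n) < p*(n)` for all sufficiently large `n`. -/
theorem result : ∃ N : ℕ, ∀ n : ℕ, N ≤ n → M n < pStar n := by
  have h0 := Pool.Agent.Results.MP_155ab0_nt.LimitZero.result.2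
  have hM : ∀ n, Pool.Agent.Results.MP_155ab0_nt.LimitZero.M n = M n := fun n => rfl
  have h1 : ∀ᶠ n : ℕ in Filter.atTop, Real.log (M n) / Real.sqrt n < 3 / 10 := by
    have := h0.eventually (gt_mem_nhds (show (0 : ℝ) < 3 / 10 by norm_num))
    simpa [hM] using this
  obtain ⟨N, hN⟩ := Filter.eventually_atTop.1 h1
  refine ⟨max N 1000, fun n hn => ?_⟩
  have hnN : N ≤ n := le_trans (le_max_left _ _) hn
  have hn1 : 1000 ≤ n := le_trans (le_max_right _ _) hn
  have h2 := hN n hnN
  have hnR : (1000 : ℝ) ≤ n := by exact_mod_cast hn1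
  have hs : 0 < Real.sqrt n := Real.sqrt_pos.2 (by linarith)
  have hs31 : (31 : ℝ) ≤ Real.sqrt n := Real.le_sqrt_of_sq_le (by norm_num; linarith)
  rw [div_lt_iff₀ hs] at h2
  -- the lower bound
  set m := Nat.sqrt (n / 3) with hm
  have hm1 : 3 * m ^ 2 ≤ n := by
    have h3 : m * m ≤ n / 3 := Nat.sqrt_le _
    have h4 : 3 * (n / 3) ≤ n := Nat.mul_div_le n 3
    nlinarith
  have hm2 : (n : ℝ) < 3 * ((m : ℝ) + 1) ^ 2 := by
    have h3 : n / 3 < (m + 1) * (m + 1) := Nat.lt_succ_sqrt _
    have h4 : n < 3 * ((m + 1) * (m + 1)) := by omega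
    have h5 : (n : ℝ) < 3 * (((m : ℝ) + 1) * (m + 1)) := by exact_mod_cast h4
    linarith [h5, sq ((m : ℝ) + 1)]
  have hmS : Real.sqrt n ≤ 7 / 4 * ((m : ℝ) + 1) := by
    apply Real.sqrt_le_iff.2
    constructor
    · positivity
    · nlinarith [sq_nonneg ((m : ℝ) + 1)]
  have hp := pStar_lower n m hm1
  -- compare logarithms
  by_contra hcon
  rw [not_lt] at hcon
  have h5 : (2 : ℝ) ^ m ≤ M n := by
    have : 2 ^ m ≤ M n := hp.trans hcon
    exact_mod_cast this
  have h6 : (m : ℝ) * Real.log 2 ≤ Real.log (M n) := by
    rw [← Real.log_pow]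
    exact Real.log_le_log (by positivity) h5
  have h7 := Real.log_two_gt_d9
  have h8 : (m : ℝ) * 0.69 ≤ Real.log (M n) := by
    refine le_trans ?_ h6
    apply mul_le_mul_of_nonneg_left _ (Nat.cast_nonneg m)
    linarith
  nlinarith

end Pool.Agent.Results.MP_f0b429_co.EventuallySmaller
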